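import Pool.Agent.Run7.h400.GK.StmA

/-!
# Project GK (helper400), piece JCL (helper160): Jacobson's lemma

The coefficients `bb m j` of `t^j` in `(D + t y)^m 1` satisfy `(j + 1) b_(m,j+1) = ∑_k C(m, k+1) y^(k) b_(m-1-k,j)`; for
`m = p` only the term `k = p - 1` is not zero.
-/

set_option autoImplicit false

namespace Run7.h160.GK

open Finset

section

variable {F : Type} [Field F] (D : F →+ F) (y : F)

/-- the coefficients of `(D + t y)^m 1` -/
noncomputable def bb : ℕ → ℕ → F
  | 0, 0 => 1
  | 0, _ + 1 => 0
  | m + 1, 0 => D (bb m 0)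
  | m + 1, j + 1 => D (bb m (j + 1)) + y * bb m j

variable {D y} (hD : ∀ x y, D (x * y) = x * D y + y * D x)

lemma bb_gt (m j : ℕ) (h : m < j) : bb D y m j = 0 := by
  induction m generalizing j with
  | zero =>
    obtain ⟨j, rfl⟩ : ∃ i, j = i + 1 := ⟨j - 1, by omega⟩
    rfl
  | succ m ih =>
    obtain ⟨j, rfl⟩ : ∃ i, j = i + 1 := ⟨j - 1, by omega⟩
    show D (bb D y m (j + 1)) + y * bb D y m j = 0
    rw [ih _ (by omega), ih _ (by omega), map_zero, mul_zero, add_zero]

lemma bb_self (m : ℕ) : bb D y m m = y ^ m := by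
  induction m with
  | zero => exact (pow_zero y).symm
  | succ m ih =>
    show D (bb D y m (m + 1)) + y * bb D y m m = _
    rw [bb_gt _ _ (by omega), map_zero, zero_add, ih, pow_succ']

include hD in
lemma D_one : D 1 = 0 := by
  have := hD 1 1
  rw [mul_one, one_mul] at this
  exact left_eq_add.1 this

include hD in
lemma bb_zero (m : ℕ) : bb D y (m + 1) 0 = 0 := by
  induction m with
  | zero => exact D_one hD
  | succ m ih =>
    show D (bb D y (m + 1) 0) = 0
    rw [ih, map_zero]

/-- the sum of the coefficients -/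
lemma sum_bb (m : ℕ) : (fun x => D x + y * x)^[m] 1 = ∑ j ∈ range (m + 1), bb D y m j := by
  induction m with
  | zero => simp [bb]
  | succ m ih =>
    rw [Function.iterate_succ_apply', ih, Finset.sum_range_succ' _ (m + 1)]
    show D (∑ j ∈ range (m + 1), bb D y m j) + y * ∑ j ∈ range (m + 1), bb D y m j =
      ∑ j ∈ range (m + 1), (D (bb D y m (j + 1)) + y * bb D y m j) + D (bb D y m 0)
    rw [Finset.sum_add_distrib, ← Finset.mul_sum, map_sum, Finset.sum_range_succ' _ m,
      Finset.sum_range_succ (fun j => D (bb D y m (j + 1))) m, bb_gt m (m + 1) (by omega), map_zero]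
    ring

include hD in
/-- the key identity -/
theorem key (m j : ℕ) : ((j : F) + 1) * bb D y m (j + 1) =
    ∑ k ∈ range m, (m.choose (k + 1) : F) * (D^[k] y * bb D y (m - 1 - k) j) := by
  have hnat : ∀ (n : ℕ) (x : F), D ((n : F) * x) = n * D x := by
    intro n x
    rw [← nsmul_eq_mul, map_nsmul, nsmul_eq_mul]
  induction m generalizing j with
  | zero => simp [bb]
  | succ m ih =>
    have h1 : ((j : F) + 1) * bb D y (m + 1) (j + 1) =
        D (∑ k ∈ range m, (m.choose (k + 1) : F) * (D^[k] y * bb D y (m - 1 - k) j)) +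
          ((j : F) + 1) * (y * bb D y m j) := by
      rw [← ih j]
      have h2 := hnat (j + 1) (bb D y m (j + 1))
      push_cast at h2
      rw [h2]
      show ((j : F) + 1) * (D (bb D y m (j + 1)) + y * bb D y m j) = _
      ring
    -- the derivative of the terms
    have h3 : ∀ n, D (bb D y n j) = bb D y (n + 1) j - (if j = 0 then 0 else y * bb D y n (j - 1)) := by
      intro n
      rcases j with _ | j
      · rw [if_pos rfl, sub_zero]
        rfl
      · rw [if_neg (Nat.succ_ne_zero j), Nat.add_sub_cancel]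
        show _ = D (bb D y n (j + 1)) + y * bb D y n j - y * bb D y n j
        ring
    have h4 : ∑ k ∈ range m, (m.choose (k + 1) : F) * (D^[k] y *
        (if j = 0 then 0 else y * bb D y (m - 1 - k) (j - 1))) = j * (y * bb D y m j) := by
      rcases j with _ | j
      · simp
      · have h5 := ih j
        rw [Nat.cast_add, Nat.cast_one]
        have h6 : ((j : F) + 1) * (y * bb D y m (j + 1)) = y * (((j : F) + 1) * bb D y m (j + 1)) := by ring
        rw [h6, h5, Finset.mul_sum]
        refine Finset.sum_congr rfl fun k _ => ?_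
        rw [if_neg (Nat.succ_ne_zero j), Nat.add_sub_cancel]
        ring
    have h7 : D (∑ k ∈ range m, (m.choose (k + 1) : F) * (D^[k] y * bb D y (m - 1 - k) j)) =
        ∑ k ∈ range m, (m.choose (k + 1) : F) * (D^[k + 1] y * bb D y (m - 1 - k) j) +
        ∑ k ∈ range m, (m.choose (k + 1) : F) * (D^[k] y * bb D y (m - k) j) - j * (y * bb D y m j) := by
      rw [map_sum, ← h4, ← Finset.sum_add_distrib, ← Finset.sum_sub_distrib]
      refine Finset.sum_congr rfl fun k hk => ?_
      rw [Finset.mem_range] at hk
      have h8 : m - 1 - k + 1 = m - k := by omega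
      rw [hnat, hD, h3, h8, Function.iterate_succ_apply']
      ring
    rw [h1, h7]
    have h9 : ∑ k ∈ range (m + 1), ((m + 1).choose (k + 1) : F) * (D^[k] y * bb D y (m + 1 - 1 - k) j) =
        ∑ k ∈ range (m + 1), (m.choose k : F) * (D^[k] y * bb D y (m - k) j) +
        ∑ k ∈ range (m + 1), (m.choose (k + 1) : F) * (D^[k] y * bb D y (m - k) j) := by
      rw [← Finset.sum_add_distrib]
      refine Finset.sum_congr rfl fun k _ => ?_
      rw [Nat.choose_succ_succ, Nat.add_sub_cancel]
      push_cast
      ring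
    rw [h9, Finset.sum_range_succ (fun k => (m.choose (k + 1) : F) * (D^[k] y * bb D y (m - k) j)) m,
      Nat.choose_succ_self, Nat.cast_zero, zero_mul, add_zero,
      Finset.sum_range_succ' (fun k => (m.choose k : F) * (D^[k] y * bb D y (m - k) j)) m]
    have h10 : ∑ k ∈ range m, (m.choose (k + 1) : F) * (D^[k + 1] y * bb D y (m - (k + 1)) j) =
        ∑ k ∈ range m, (m.choose (k + 1) : F) * (D^[k + 1] y * bb D y (m - 1 - k) j) := by
      refine Finset.sum_congr rfl fun k _ => ?_
      have : m - (k + 1) = m - 1 - k := by omega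
      rw [this]
    rw [h10, Nat.choose_zero_right, Nat.cast_one, one_mul, Function.iterate_zero_apply, Nat.sub_zero]
    ring

include hD in
/-- Jacobson's formula -/
theorem jac {p : ℕ} (hp : p.Prime) [CharP F p] : (fun x => D x + y * x)^[p] 1 = D^[p - 1] y + y ^ p := by
  have h2 := hp.two_le
  obtain ⟨r, hr⟩ : ∃ r, p = r + 2 := ⟨p - 2, by omega⟩
  have hk : ∀ j : ℕ, ((j : F) + 1) * bb D y p (j + 1) = D^[p - 1] y * bb D y 0 j := by
    intro j
    rw [key hD, Finset.sum_eq_single (p - 1)]
    · have h3 : p - 1 + 1 = p := by omega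
      rw [h3, Nat.choose_self, Nat.cast_one, one_mul, Nat.sub_self]
    · intro k hk hne
      rw [Finset.mem_range] at hk
      have h3 : p ∣ p.choose (k + 1) := hp.dvd_choose_self (Nat.succ_ne_zero k) (by omega)
      rw [(CharP.cast_eq_zero_iff F p _).2 h3, zero_mul]
    · intro h
      exact absurd (Finset.mem_range.2 (by omega)) h
  rw [sum_bb, Finset.sum_range_succ, bb_self]
  congr 1
  have h4 : ∑ j ∈ range p, bb D y p j = bb D y p 1 := by
    refine Finset.sum_eq_single 1 (fun j hj hne => ?_) (fun h => absurd (Finset.mem_range.2 (by omega)) h)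
    rw [Finset.mem_range] at hj
    rcases j with _ | j
    · rw [hr]
      exact bb_zero hD _
    · have h5 := hk j
      rcases j with _ | j
      · exact absurd rfl hne
      · have h6 : bb D y 0 (j + 1) = 0 := rfl
        rw [h6, mul_zero] at h5
        refine (mul_eq_zero.1 h5).resolve_left ?_
        have h7 : (((j + 1 : ℕ) : F) + 1) = ((j + 2 : ℕ) : F) := by push_cast; ring
        rw [h7]
        intro h8
        have h9 := (CharP.cast_eq_zero_iff F p _).1 h8
        exact absurd (Nat.le_of_dvd (by omega) h9) (by omega)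
  rw [h4]
  have h5 := hk 0
  rw [Nat.cast_zero, zero_add, one_mul, zero_add] at h5
  rw [h5]
  exact mul_one _

end

/-- **JCL** -/
theorem t_JCL : Run7.h400.GK.S_JCL := by
  classical
  intro F _ p D z hp hch hD _ hz
  have h1 : (fun x => D x + (-z) * x)^[p] 1 = 0 := by
    have h2 := jac (D := D) (y := -z) hD hp
    rw [h2]
    have h3 : D^[p - 1] (-z) = - D^[p - 1] z := by
      have h4 : ∀ (n : ℕ) (x : F), D^[n] (-x) = - D^[n] x := by
        intro n
        induction n with
        | zero => intro x; rfl
        | succ n ih =>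
          intro x
          rw [Function.iterate_succ_apply, map_neg, ih, Function.iterate_succ_apply]
      exact h4 _ _
    have h5 : (-z) ^ p = - z ^ p := by
      have := Fact.mk hp
      exact map_neg (frobenius F p) z
    rw [h3, hz, h5, neg_neg, add_neg_cancel]
  have hex : ∃ n, (fun x => D x + (-z) * x)^[n] 1 = 0 := ⟨p, h1⟩
  set n := Nat.find hex with hn
  have hn0 : n ≠ 0 := by
    intro h0
    have := Nat.find_spec hex
    rw [← hn, h0] at this
    exact one_ne_zero this
  obtain ⟨m, hm⟩ : ∃ m, n = m + 1 := ⟨n - 1, by omega⟩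
  refine ⟨(fun x => D x + (-z) * x)^[m] 1, Nat.find_min hex (by omega), ?_⟩
  have h2 := Nat.find_spec hex
  rw [← hn, hm, Function.iterate_succ_apply'] at h2
  linear_combination h2

end Run7.h160.GK
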