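import Pool.Agent.Run7.h400.GK.StmB

/-!
# Project GK (helper400), piece RTP (helper160): `p`-th roots of principal ideals
-/

set_option autoImplicit false

namespace Run7.h160.GK

open nonZeroDivisors
open Run7.h400.GK

section

variable {O F : Type} [CommRing O] [IsDedekindDomain O] [Field F] [Algebra O F] [IsFractionRing O F]

lemma le_one_of_pow {K : (FractionalIdeal O⁰ F)ˣ} {p : ℕ} (hp : 0 < p) (h : K ^ p = 1) :
    (K : FractionalIdeal O⁰ F) ≤ 1 := by
  intro x hx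
  have h1 : x ^ p ∈ ((K : FractionalIdeal O⁰ F) ^ p) := by
    have h2 : ∀ n : ℕ, x ^ n ∈ ((K : FractionalIdeal O⁰ F) ^ n) := by
      intro n
      induction n with
      | zero =>
        rw [pow_zero, pow_zero]
        exact FractionalIdeal.one_mem_one _
      | succ n ih =>
        rw [pow_succ, pow_succ]
        exact FractionalIdeal.mul_mem_mul ih hx
    exact h2 p
  have h2 : ((K : FractionalIdeal O⁰ F) ^ p) = 1 := by
    rw [← Units.val_pow_eq_pow_val, h, Units.val_one]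
  rw [h2, FractionalIdeal.mem_one_iff] at h1
  obtain ⟨a, ha⟩ := h1
  have h3 : IsIntegral O x := IsIntegral.of_pow hp (by rw [← ha]; exact isIntegral_algebraMap)
  obtain ⟨b, hb⟩ := IsIntegrallyClosed.isIntegral_iff.1 h3
  exact (FractionalIdeal.mem_one_iff _).2 ⟨b, hb⟩

lemma eq_one_of_pow {K : (FractionalIdeal O⁰ F)ˣ} {p : ℕ} (hp : 0 < p) (h : K ^ p = 1) : K = 1 := by
  have h1 := le_one_of_pow hp h
  have h2 : ((K⁻¹ : (FractionalIdeal O⁰ F)ˣ) : FractionalIdeal O⁰ F) ≤ 1 :=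
    le_one_of_pow hp (by rw [inv_pow, h, inv_one])
  apply Units.ext
  refine le_antisymm h1 ?_
  rw [Units.val_one]
  calc (1 : FractionalIdeal O⁰ F) = (K : FractionalIdeal O⁰ F) * ((K⁻¹ : (FractionalIdeal O⁰ F)ˣ) :
        FractionalIdeal O⁰ F) := (Units.mul_inv K).symm
    _ ≤ (K : FractionalIdeal O⁰ F) * 1 := mul_le_mul_right h2 _
    _ = K := mul_one _

lemma inj_pow {I J : (FractionalIdeal O⁰ F)ˣ} {p : ℕ} (hp : 0 < p) (h : I ^ p = J ^ p) : I = J := by
  have h1 : (I * J⁻¹) ^ p = 1 := by rw [mul_pow, h, inv_pow, mul_inv_cancel]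
  exact mul_inv_eq_one.1 (eq_one_of_pow hp h1)

/-- principal ideals as units -/
lemma exists_pr {x : F} (hx : x ≠ 0) : ∃ J : (FractionalIdeal O⁰ F)ˣ,
    (J : FractionalIdeal O⁰ F) = FractionalIdeal.spanSingleton O⁰ x ∧ ClassGroup.mk F J = 1 := by
  refine ⟨toPrincipalIdeal O F (Units.mk0 x hx), coe_toPrincipalIdeal (R := O) _, ?_⟩
  rw [ClassGroup.mk_eq_one_iff]
  rw [coe_toPrincipalIdeal]
  exact ⟨⟨x, by rw [FractionalIdeal.coe_spanSingleton]; rfl⟩⟩

end

/-- **RTP** -/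
theorem t_RTP : Run7.h400.GK.S_RTP := by
  intro O F _ _ _ _ _ p hp
  refine ⟨?_, ?_, ?_, ?_, ?_⟩
  · rintro h h' c c' ⟨h1, I, h2, h3⟩ ⟨h1', I', h2', h3'⟩
    refine ⟨mul_ne_zero h1 h1', I * I', ?_, ?_⟩
    · rw [← FractionalIdeal.spanSingleton_mul_spanSingleton, h2, h2', mul_pow, Units.val_mul]
    · rw [map_mul, h3, h3']
  · rintro x c ⟨h1, I, h2, h3⟩
    have hx : x ≠ 0 := by
      rintro rfl
      exact h1 (zero_pow hp.ne')
    obtain ⟨J, hJ, hJ1⟩ := exists_pr (O := O) hx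
    have h4 : J ^ p = I ^ p := by
      apply Units.ext
      rw [← h2, Units.val_pow_eq_pow_val, hJ, FractionalIdeal.spanSingleton_pow]
    rw [← h3, ← inj_pow hp h4, hJ1]
  · rintro h ⟨h1, I, h2, h3⟩
    rw [ClassGroup.mk_eq_one_iff] at h3
    obtain ⟨x, hx⟩ := (FractionalIdeal.isPrincipal_iff _).1 h3
    have h4 : FractionalIdeal.spanSingleton O⁰ (x ^ p) = FractionalIdeal.spanSingleton O⁰ h := by
      rw [h2, Units.val_pow_eq_pow_val, hx, FractionalIdeal.spanSingleton_pow]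
    obtain ⟨ε, hε⟩ := FractionalIdeal.spanSingleton_eq_spanSingleton.1 h4
    refine ⟨ε, x, ?_, ?_⟩
    · rintro rfl
      rw [zero_pow hp.ne', smul_zero] at hε
      exact h1 hε.symm
    · rw [← hε, Units.smul_def, Algebra.smul_def]
  · rintro h c ⟨h1, I, h2, h3⟩
    refine ⟨inv_ne_zero h1, I⁻¹, ?_, ?_⟩
    · rw [inv_pow, ← FractionalIdeal.spanSingleton_inv, h2]
      exact (Units.val_inv_eq_inv_val _).symm
    · rw [map_inv, h3]
  · rintro h c ⟨h1, I, h2, h3⟩
    obtain ⟨J, hJ, hJ1⟩ := exists_pr (O := O) h1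
    have h4 : J = I ^ p := by
      apply Units.ext
      rw [hJ, h2]
    rw [← h3, ← map_pow, ← h4, hJ1]

end Run7.h160.GK
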